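import Pool.Agent.H174.GP.StP

/-!
Project GP (helper174): the shift for the Laplace process.
-/

set_option autoImplicit false

open MeasureTheory ProbabilityTheory Finset

namespace Pool.Agent.H100.GP174

open Pool.Agent.H174.GP

/-- the shift -/
noncomputable def et (δ : ℝ) (L : ℕ) (j : ℕ) : ℝ := if j ∈ Finset.Icc 1 L then δ / Real.sqrt j else 0

theorem sqrt_ge_one {j : ℕ} (hj : 1 ≤ j) : 1 ≤ Real.sqrt j := by
  rw [Real.one_le_sqrt]
  exact_mod_cast hj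

theorem et_nonneg {δ : ℝ} (hδ : 0 < δ) (L j : ℕ) : 0 ≤ et δ L j := by
  unfold et
  split_ifs <;> positivity

theorem et_le {δ : ℝ} (hδ : 0 < δ) (L j : ℕ) : et δ L j ≤ δ := by
  unfold et
  split_ifs with h
  · have h1 := sqrt_ge_one (Finset.mem_Icc.mp h).1
    exact div_le_self hδ.le h1
  · exact hδ.le

theorem sum_et_sq {δ : ℝ} (L : ℕ) :
    ∑ j ∈ Finset.Icc 1 L, (et δ L j) ^ 2 ≤ δ ^ 2 * (1 + Real.log L) := by
  have h1 : ∑ j ∈ Finset.Icc 1 L, (et δ L j) ^ 2 = δ ^ 2 * ∑ j ∈ Finset.Icc 1 L, ((j : ℝ))⁻¹ := by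
    rw [Finset.mul_sum]
    refine Finset.sum_congr rfl fun j hj => ?_
    unfold et
    rw [if_pos hj, div_pow, Real.sq_sqrt (Nat.cast_nonneg j), div_eq_mul_inv]
  have h2 : ∑ j ∈ Finset.Icc 1 L, ((j : ℝ))⁻¹ ≤ 1 + Real.log L := by
    have h3 := harmonic_le_one_add_log L
    rw [harmonic_eq_sum_Icc] at h3
    push_cast at h3
    exact h3
  rw [h1]
  exact mul_le_mul_of_nonneg_left h2 (sq_nonneg δ)

theorem Ch_sub (ω η : ℕ → ℝ) (L x : ℕ) :
    Ch (fun j => ω j - η j) L x = Ch ω L x - Ch η L x := by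
  unfold Ch Cs
  rw [← Finset.sum_sub_distrib]
  refine Finset.sum_congr rfl fun j _ => ?_
  ring

theorem Ch_et {δ : ℝ} (hδ : 0 < δ) {L x : ℕ} (hx : x ∈ Finset.Icc 1 L) :
    δ * Real.sqrt x ≤ Ch (et δ L) L x := by
  obtain ⟨hx1, hxL⟩ := Finset.mem_Icc.mp hx
  have hx0 : (0 : ℝ) < Real.sqrt x := lt_of_lt_of_le one_pos (sqrt_ge_one hx1)
  unfold Ch Cs
  have h1 : ∑ j ∈ Finset.Icc 1 x, δ / Real.sqrt x ≤
      ∑ j ∈ Finset.Icc 1 x, ((min j x : ℕ) : ℝ) * (et δ L j / (j : ℝ)) := by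
    refine Finset.sum_le_sum fun j hj => ?_
    obtain ⟨hj1, hjx⟩ := Finset.mem_Icc.mp hj
    have hj0 : (0 : ℝ) < (j : ℝ) := by exact_mod_cast hj1
    have hj2 : (0 : ℝ) < Real.sqrt j := lt_of_lt_of_le one_pos (sqrt_ge_one hj1)
    rw [min_eq_left hjx]
    unfold et
    rw [if_pos (Finset.mem_Icc.mpr ⟨hj1, hjx.trans hxL⟩), mul_div_cancel₀ _ hj0.ne']
    exact div_le_div_of_nonneg_left hδ.le hj2 (Real.sqrt_le_sqrt (by exact_mod_cast hjx))
  have h2 : ∑ j ∈ Finset.Icc 1 x, δ / Real.sqrt x = δ * Real.sqrt x := by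
    rw [Finset.sum_const, Nat.card_Icc, Nat.add_sub_cancel, nsmul_eq_mul]
    have h3 : (x : ℝ) = Real.sqrt x * Real.sqrt x := (Real.mul_self_sqrt (Nat.cast_nonneg x)).symm
    rw [mul_div_assoc', div_eq_iff hx0.ne']
    calc (x : ℝ) * δ = δ * (Real.sqrt x * Real.sqrt x) := by rw [← h3]; ring
      _ = δ * Real.sqrt x * Real.sqrt x := by ring
  have h3 : ∑ j ∈ Finset.Icc 1 x, ((min j x : ℕ) : ℝ) * (et δ L j / (j : ℝ)) ≤
      ∑ j ∈ Finset.Icc 1 L, ((min j x : ℕ) : ℝ) * (et δ L j / (j : ℝ)) := by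
    refine Finset.sum_le_sum_of_subset_of_nonneg (Finset.Icc_subset_Icc le_rfl hxL) fun j _ _ => ?_
    have := et_nonneg hδ L j
    positivity
  linarith

theorem measurable_Ch (L x : ℕ) : Measurable fun ω : ℕ → ℝ => Ch ω L x := by
  unfold Ch Cs
  refine Finset.measurable_fun_sum _ fun j _ => ?_
  exact ((measurable_pi_apply j).div_const _).const_mul _

theorem gp_shiftc (h1 : S_shift) : Pool.Agent.H174.GP.S_shiftC := by
  intro ε δ L X t hε hε1 hδ hδε hL hX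
  have hm : MeasurableSet {ω : ℕ → ℝ | ∀ x ∈ X, t x ≤ Ch ω L x} := by
    have h2 : {ω : ℕ → ℝ | ∀ x ∈ X, t x ≤ Ch ω L x} = ⋂ x ∈ X, {ω : ℕ → ℝ | t x ≤ Ch ω L x} := by
      ext ω
      simp only [Set.mem_ofPred_eq, Set.mem_iInter]
    rw [h2]
    exact Finset.measurableSet_biInter X fun x _ => measurableSet_le measurable_const (measurable_Ch L x)
  have hd : DepOn (Finset.Icc 1 L) {ω : ℕ → ℝ | ∀ x ∈ X, t x ≤ Ch ω L x} := by
    intro ω ω' hω h x hx
    have h3 : Ch ω' L x = Ch ω L x := by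
      unfold Ch Cs
      exact Finset.sum_congr rfl fun j hj => by simp only [hω j hj]
    rw [h3]
    exact h x hx
  have h2 := h1 ε L (et δ L) _ hε hε1 (fun j => ⟨et_nonneg hδ L j, (et_le hδ L j).trans hδε⟩) hm hd
  have h4ε : 0 < 4 / ε := by positivity
  refine le_trans (mul_le_mul_of_nonneg_left ?_ (Real.rpow_nonneg measureReal_nonneg _))
    (le_trans h2 ?_)
  · refine Real.exp_le_exp.mpr (neg_le_neg ?_)
    exact mul_le_mul_of_nonneg_left (sum_et_sq L) h4ε.le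
  · refine measureReal_mono ?_
    intro ω hω x hx
    have h5 := hω x hx
    rw [Ch_sub] at h5
    have h6 := Ch_et hδ (hX hx)
    linarith

end Pool.Agent.H100.GP174
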